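import Mathlib

set_option autoImplicit false

/-!
A continuous piecewise polynomial function on real 45-space which is not a finite max of finite
mins of polynomials.

Coordinates: rows `a_0, .., a_3`, `c`, `b_0, .., b_3`, each a vector with five entries.
`S` is the symmetric five by five matrix `sum_k (a_k b_k^T + b_k a_k^T) + 2 c c^T`,
`f = (tr S)^2 - 4 tr (S^2)`, `D` is the determinant of the matrix with rows `a_0, .., a_3, c`.
The function is `max f 0` where `D > 0` and `0` elsewhere.
-/

namespace Pool.Agent.PB61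

open Finset Filter Topology

/-- Index set of the 45 coordinates. -/
inductive Ix
  | a (k : Fin 4) (i : Fin 5)
  | c (i : Fin 5)
  | b (k : Fin 4) (i : Fin 5)
  deriving DecidableEq, Fintype

/-- Index set of the parameters of the arcs. -/
inductive Px
  | th (k : Fin 4)
  | L (k l : Fin 4)
  | P (k : Fin 4) (i : Fin 5)
  | ka (i : Fin 5)
  | be (k : Fin 4) (i : Fin 5)
  deriving DecidableEq, Fintype

section defs

variable {B : Type*} [CommRing B]

/-- The arcs. -/
def Psi (x : Px → B) (t : B) : Ix → B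
  | .a k i => x (.P k i)
  | .c i => t * x (.ka i) + ∑ k, x (.th k) * x (.P k i)
  | .b k i => t ^ 2 * x (.be k i) - 2 * t * x (.th k) * x (.ka i)
      - x (.th k) * (∑ l, x (.th l) * x (.P l i))
      + ∑ l, (x (.L k l) - x (.L l k)) * x (.P l i)

/-- The symmetric matrix. -/
def S (x : Ix → B) (i j : Fin 5) : B :=
  (∑ k, (x (.a k i) * x (.b k j) + x (.b k i) * x (.a k j))) + 2 * (x (.c i) * x (.c j))

/-- The quartic form. -/
def f (x : Ix → B) : B := (∑ i, S x i i) ^ 2 - 4 * ∑ i, ∑ j, (S x i j) ^ 2

/-- The matrix with rows `a_0, .., a_3, c`. -/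
def Mat (x : Ix → B) : Matrix (Fin 5) (Fin 5) B :=
  fun r i => Fin.lastCases (x (.c i)) (fun k => x (.a k i)) r

/-- Its determinant. -/
def D (x : Ix → B) : B := (Mat x).det

/-- The value of the arc family with the fibre coordinates switched off. -/
def base (x : Px → B) : Ix → B
  | .a k i => x (.P k i)
  | .c i => x (.ka i)
  | .b k i => x (.be k i)

end defs

section maps

variable {B B' : Type*} [CommRing B] [CommRing B']

theorem map_Psi (φ : B →+* B') (x : Px → B) (t : B) (j : Ix) :
    φ (Psi x t j) = Psi (fun p => φ (x p)) (φ t) j := by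
  cases j <;> simp [Psi, map_ofNat]

theorem map_S (φ : B →+* B') (x : Ix → B) (i j : Fin 5) :
    φ (S x i j) = S (fun p => φ (x p)) i j := by
  simp [S, map_ofNat]

theorem map_f (φ : B →+* B') (x : Ix → B) : φ (f x) = f (fun p => φ (x p)) := by
  simp [f, map_S, map_ofNat]

theorem map_D (φ : B →+* B') (x : Ix → B) : φ (D x) = D (fun p => φ (x p)) := by
  unfold D
  rw [RingHom.map_det]
  congr 1
  ext r i
  simp only [RingHom.mapMatrix_apply, Matrix.map_apply, Mat]
  refine Fin.lastCases ?_ (fun k => ?_) r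
  · simp only [Fin.lastCases_last]
  · simp only [Fin.lastCases_castSucc]

end maps

/-- The pulled back polynomial. -/
noncomputable def G (q : MvPolynomial Ix ℝ) : Polynomial (MvPolynomial Px ℝ) :=
  MvPolynomial.eval₂ (Polynomial.C.comp MvPolynomial.C)
    (Psi (fun p => Polynomial.C (MvPolynomial.X p)) Polynomial.X) q

/-- Evaluation of a polynomial with polynomial coefficients. -/
noncomputable def ev (x : Px → ℝ) (t : ℝ) : Polynomial (MvPolynomial Px ℝ) →+* ℝ :=
  Polynomial.eval₂RingHom (MvPolynomial.eval x) t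

theorem ev_G (q : MvPolynomial Ix ℝ) (x : Px → ℝ) (t : ℝ) :
    ev x t (G q) = MvPolynomial.eval (Psi x t) q := by
  unfold G
  rw [MvPolynomial.eval₂_comp_left]
  have h1 : (ev x t).comp (Polynomial.C.comp MvPolynomial.C) = RingHom.id ℝ := by
    ext r
    simp [ev]
  have h2 : (ev x t) ∘ (Psi (fun p => Polynomial.C (MvPolynomial.X p)) Polynomial.X) = Psi x t := by
    funext j
    simp only [Function.comp_apply]
    rw [map_Psi]
    simp [ev]
  rw [h1, h2]
  rfl

theorem continuous_ev (p : Polynomial (MvPolynomial Px ℝ)) :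
    Continuous (fun z : (Px → ℝ) × ℝ => ev z.1 z.2 p) := by
  have : (fun z : (Px → ℝ) × ℝ => ev z.1 z.2 p) =
      fun z => ∑ i ∈ range (p.natDegree + 1), MvPolynomial.eval z.1 (p.coeff i) * z.2 ^ i := by
    funext z
    simp [ev, Polynomial.eval₂_eq_sum_range]
  rw [this]
  exact continuous_finsetSum _ (fun i _ =>
    ((MvPolynomial.continuous_eval _).comp continuous_fst).mul (continuous_snd.pow i))

theorem ev_zero (p : Polynomial (MvPolynomial Px ℝ)) (x : Px → ℝ) :
    ev x 0 p = MvPolynomial.eval x (p.coeff 0) := by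
  simp [ev]

/-- Change the sign of `κ`. -/
def neg (x : Px → ℝ) : Px → ℝ
  | .th k => x (.th k)
  | .L k l => x (.L k l)
  | .P k i => x (.P k i)
  | .ka i => - x (.ka i)
  | .be k i => x (.be k i)

/-- The shift by `s`. -/
def shift (s : Fin 4 → ℝ) (x : Px → ℝ) : Px → ℝ
  | .th k => x (.th k)
  | .L k l => x (.L k l)
  | .P k i => x (.P k i)
  | .ka i => x (.ka i) + ∑ k, s k * x (.P k i)
  | .be k i => x (.be k i) - 2 * s k * x (.ka i) - s k * ∑ l, s l * x (.P l i)

/-- The compensating move. -/
def gauge (s : Fin 4 → ℝ) (t : ℝ) (x : Px → ℝ) : Px → ℝ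
  | .th k => x (.th k) + t * s k
  | .L k l => x (.L k l) + t * (s k * x (.th l))
  | .P k i => x (.P k i)
  | .ka i => x (.ka i)
  | .be k i => x (.be k i)

/-- Perturb the `P` part. -/
def pert (j : Fin 5) (e : ℝ) (x : Px → ℝ) : Px → ℝ
  | .th k => x (.th k)
  | .L k l => x (.L k l)
  | .P k i => x (.P k i) + e * (if i = j.succAbove k then 1 else 0)
  | .ka i => x (.ka i)
  | .be k i => x (.be k i)

/-- Column of a parameter. -/
def keepP (T : Finset (Fin 5)) (x : Px → ℝ) : Px → ℝ
  | .th k => x (.th k)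
  | .L k l => x (.L k l)
  | .P k i => if i ∈ T then x (.P k i) else 0
  | .ka i => if i ∈ T then x (.ka i) else 0
  | .be k i => if i ∈ T then x (.be k i) else 0

/-- Column of a coordinate. -/
def col : Ix → Fin 5
  | .a _ i => i
  | .c i => i
  | .b _ i => i

/-- Keep the columns in `T`. -/
def keep (T : Finset (Fin 5)) (x : Ix → ℝ) : Ix → ℝ := fun j => if col j ∈ T then x j else 0

theorem Psi_neg (x : Px → ℝ) (t : ℝ) : Psi (neg x) t = Psi x (-t) := by
  funext j
  cases j <;> simp [Psi, neg]

theorem Psi_shift (s : Fin 4 → ℝ) (x : Px → ℝ) (t : ℝ) :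
    Psi (shift s x) t = Psi (gauge s t x) t := by
  funext j
  cases j with
  | a k i => simp [Psi, shift, gauge]
  | c i =>
    simp only [Psi, shift, gauge, Fin.sum_univ_four]
    ring
  | b k i =>
    simp only [Psi, shift, gauge, Fin.sum_univ_four]
    ring

theorem Psi_keep (T : Finset (Fin 5)) (x : Px → ℝ) (t : ℝ) :
    Psi (keepP T x) t = keep T (Psi x t) := by
  funext j
  cases j with
  | a k i => by_cases h : i ∈ T <;> simp [Psi, keepP, keep, col, h]
  | c i => by_cases h : i ∈ T <;> simp [Psi, keepP, keep, col, h]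
  | b k i => by_cases h : i ∈ T <;> simp [Psi, keepP, keep, col, h]

theorem gauge_zero (s : Fin 4 → ℝ) (x : Px → ℝ) : gauge s 0 x = x := by
  funext j
  cases j <;> simp [gauge]

theorem pert_zero (j : Fin 5) (x : Px → ℝ) : pert j 0 x = x := by
  funext j
  cases j <;> simp [pert]

theorem keepP_univ (x : Px → ℝ) : keepP Finset.univ x = x := by
  funext j
  cases j <;> simp [keepP]

theorem continuous_neg' : Continuous neg := by
  refine continuous_pi fun j => ?_
  cases j <;> simp only [neg] <;> fun_prop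

theorem continuous_gauge (s : Fin 4 → ℝ) (x : Px → ℝ) : Continuous (fun t => gauge s t x) := by
  refine continuous_pi fun j => ?_
  cases j <;> simp only [gauge] <;> fun_prop

theorem continuous_pert (j : Fin 5) (x : Px → ℝ) : Continuous (fun t => pert j t x) := by
  refine continuous_pi fun j => ?_
  cases j <;> simp only [pert] <;> fun_prop

theorem cancel {A B : ℝ → ℝ} (hA : Continuous A) (hB : Continuous B) (r : ℕ)
    (h : ∀ t, t ^ r * A t = t ^ r * B t) : A 0 = B 0 := by
  have : A = B := Continuous.ext_on (dense_compl_singleton (0 : ℝ)) hA hB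
    (fun t ht => mul_left_cancel₀ (pow_ne_zero r ht) (h t))
  rw [this]

/-- A monomial of degree at most four misses one of the five columns. -/
theorem exists_missing (d : Ix →₀ ℕ) (hd : ∑ j, d j ≤ 4) : ∃ i : Fin 5, ∀ j, col j = i → d j = 0 := by
  by_contra hcon
  push Not at hcon
  choose g hg hg' using hcon
  have hinj : Function.Injective g := by
    intro i i' h
    rw [← hg i, ← hg i', h]
  have h1 : ∑ i : Fin 5, d (g i) ≤ ∑ j, d j := by
    rw [← Finset.sum_image (s := Finset.univ) (g := g) (f := fun j => d j)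
      (fun i _ i' _ h => hinj h)]
    exact Finset.sum_le_sum_of_subset (Finset.subset_univ _)
  have h2 : ∑ i : Fin 5, 1 ≤ ∑ i : Fin 5, d (g i) :=
    Finset.sum_le_sum (fun i _ => Nat.one_le_iff_ne_zero.mpr (hg' i))
  simp at h2
  omega

theorem keep_prod_toggle (d : Ix →₀ ℕ) (i : Fin 5) (hi : ∀ j, col j = i → d j = 0)
    (x : Ix → ℝ) (T T' : Finset (Fin 5)) (hT : ∀ l, l ≠ i → (l ∈ T ↔ l ∈ T')) :
    ∏ j, keep T x j ^ d j = ∏ j, keep T' x j ^ d j := by
  refine Finset.prod_congr rfl fun j _ => ?_
  by_cases h : col j = i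
  · rw [hi j h]
    simp
  · have := hT (col j) h
    simp only [keep]
    by_cases h' : col j ∈ T
    · rw [if_pos h', if_pos (this.mp h')]
    · rw [if_neg h', if_neg (fun h'' => h' (this.mpr h''))]

theorem sum_keep_monomial (d : Ix →₀ ℕ) (hd : ∑ j, d j ≤ 4) (x : Ix → ℝ) :
    ∑ T : Finset (Fin 5), (-1 : ℝ) ^ T.card * ∏ j, keep T x j ^ d j = 0 := by
  obtain ⟨i, hi⟩ := exists_missing d hd
  refine Finset.sum_involution (fun T _ => if i ∈ T then T.erase i else insert i T) ?_ ?_ ?_ ?_
  · intro T _
    by_cases h : i ∈ T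
    · simp only [h, if_true]
      rw [keep_prod_toggle d i hi x (T.erase i) T (fun l hl => by simp [hl])]
      have hc : T.card = (T.erase i).card + 1 := by
        rw [Finset.card_erase_of_mem h]
        have := Finset.card_pos.mpr ⟨i, h⟩
        omega
      rw [hc, pow_succ]
      ring
    · simp only [h, if_false]
      rw [keep_prod_toggle d i hi x (insert i T) T (fun l hl => by simp [hl]),
        Finset.card_insert_of_notMem h, pow_succ]
      ring
  · intro T _ _
    by_cases h : i ∈ T
    · simp only [h, if_true]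
      intro hh
      rw [← hh] at h
      simp at h
    · simp only [h, if_false]
      intro hh
      rw [← hh] at h
      simp at h
  · intro T _
    exact Finset.mem_univ _
  · intro T _
    by_cases h : i ∈ T
    · simp [h]
    · simp [h]

theorem sum_keep (q : MvPolynomial Ix ℝ) (hq : q.totalDegree ≤ 4) (x : Ix → ℝ) :
    ∑ T : Finset (Fin 5), (-1 : ℝ) ^ T.card * MvPolynomial.eval (keep T x) q = 0 := by
  simp only [MvPolynomial.eval_eq', Finset.mul_sum]
  rw [Finset.sum_comm]
  refine Finset.sum_eq_zero fun d hd => ?_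
  have h1 : ∑ j, d j ≤ 4 := by
    have := MvPolynomial.le_totalDegree hd
    rw [Finsupp.sum_fintype _ _ (fun _ => rfl)] at this
    exact this.trans hq
  have h2 := sum_keep_monomial d h1 x
  have h3 : ∀ T : Finset (Fin 5), (-1 : ℝ) ^ T.card * (MvPolynomial.coeff d q * ∏ j, keep T x j ^ d j) =
      MvPolynomial.coeff d q * ((-1 : ℝ) ^ T.card * ∏ j, keep T x j ^ d j) := by
    intro T; ring
  simp only [h3]
  rw [← Finset.mul_sum, h2, mul_zero]

section leading

variable {q : MvPolynomial Ix ℝ} {r : ℕ} {H : (Px → ℝ) → ℝ → ℝ}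

theorem H_cont1 (hc : Continuous (fun z : (Px → ℝ) × ℝ => H z.1 z.2)) (x : Px → ℝ) :
    Continuous (fun t => H x t) :=
  hc.comp (Continuous.prodMk continuous_const continuous_id)

theorem H_cont2 (hc : Continuous (fun z : (Px → ℝ) × ℝ => H z.1 z.2)) :
    Continuous (fun x => H x 0) :=
  hc.comp (Continuous.prodMk continuous_id continuous_const)

theorem H_neg (hc : Continuous (fun z : (Px → ℝ) × ℝ => H z.1 z.2))
    (h : ∀ x t, MvPolynomial.eval (Psi x t) q = t ^ r * H x t) (x : Px → ℝ) :
    H (neg x) 0 = (-1) ^ r * H x 0 := by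
  have key := cancel (A := fun t => H (neg x) t) (B := fun t => (-1) ^ r * H x (-t))
    (H_cont1 hc _) (continuous_const.mul ((H_cont1 hc x).comp continuous_neg)) r ?_
  · simpa using key
  · intro t
    have h1 := h (neg x) t
    rw [Psi_neg, h x (-t)] at h1
    rw [← h1, neg_pow]
    ring

theorem H_shift (hc : Continuous (fun z : (Px → ℝ) × ℝ => H z.1 z.2))
    (h : ∀ x t, MvPolynomial.eval (Psi x t) q = t ^ r * H x t) (s : Fin 4 → ℝ) (x : Px → ℝ) :
    H (shift s x) 0 = H x 0 := by
  have key := cancel (A := fun t => H (shift s x) t) (B := fun t => H (gauge s t x) t)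
    (H_cont1 hc _) (hc.comp ((continuous_gauge s x).prodMk continuous_id)) r ?_
  · simpa [gauge_zero] using key
  · intro t
    rw [← h, ← h, Psi_shift]

theorem H_col_aux (hc : Continuous (fun z : (Px → ℝ) × ℝ => H z.1 z.2))
    (h : ∀ x t, MvPolynomial.eval (Psi x t) q = t ^ r * H x t) (j : Fin 5) (x : Px → ℝ)
    (hP : ∀ k, x (.P k j) = 0) (hk : x (.ka j) = 0)
    (hdet : (Matrix.of fun k l : Fin 4 => x (.P k (j.succAbove l))).det ≠ 0) :
    H (neg x) 0 = H x 0 := by
  set M : Matrix (Fin 4) (Fin 4) ℝ := Matrix.of fun k l : Fin 4 => x (.P k (j.succAbove l)) with hM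
  have hu : IsUnit M.det := isUnit_iff_ne_zero.mpr hdet
  obtain ⟨s, hs⟩ : ∃ s : Fin 4 → ℝ, Matrix.vecMul s M = fun l => - x (.ka (j.succAbove l)) := by
    refine ⟨Matrix.vecMul (fun l => - x (.ka (j.succAbove l))) M⁻¹, ?_⟩
    rw [Matrix.vecMul_vecMul, Matrix.nonsing_inv_mul _ hu, Matrix.vecMul_one]
  have hs' : ∀ i : Fin 5, ∑ k, s k * x (.P k i) = - x (.ka i) := by
    intro i
    rcases Fin.eq_self_or_eq_succAbove j i with rfl | ⟨l, rfl⟩
    · simp [hP, hk]
    · have := congrFun hs l
      simpa [Matrix.vecMul, dotProduct, hM] using this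
  have heq : shift s x = shift (-s) (neg x) := by
    funext p
    cases p with
    | th k => rfl
    | L k l => rfl
    | P k i => rfl
    | ka i =>
      have := hs' i
      simp only [shift, neg, Pi.neg_apply, neg_mul, Finset.sum_neg_distrib, this]
      ring
    | be k i =>
      have := hs' i
      simp only [shift, neg, Pi.neg_apply, neg_mul, Finset.sum_neg_distrib, this]
      ring
  rw [← H_shift hc h s x, heq, H_shift hc h (-s) (neg x)]

theorem H_col (hc : Continuous (fun z : (Px → ℝ) × ℝ => H z.1 z.2))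
    (h : ∀ x t, MvPolynomial.eval (Psi x t) q = t ^ r * H x t) (j : Fin 5) (x : Px → ℝ)
    (hP : ∀ k, x (.P k j) = 0) (hk : x (.ka j) = 0) :
    H (neg x) 0 = H x 0 := by
  set M : Matrix (Fin 4) (Fin 4) ℝ := Matrix.of fun k l : Fin 4 => x (.P k (j.succAbove l)) with hM
  have hfin : {e : ℝ | (-M).charpoly.IsRoot e}.Finite :=
    Polynomial.finite_setOfPred_isRoot (Matrix.charpoly_monic _).ne_zero
  have hdense : Dense ({e : ℝ | (-M).charpoly.IsRoot e}ᶜ) :=
    hfin.countable.dense_compl ℝ
  have hfun : (fun e => H (neg (pert j e x)) 0) = fun e => H (pert j e x) 0 := by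
    refine Continuous.ext_on hdense ?_ ?_ ?_
    · exact (H_cont2 hc).comp (continuous_neg'.comp (continuous_pert j x))
    · exact (H_cont2 hc).comp (continuous_pert j x)
    · intro e he
      refine H_col_aux hc h j _ ?_ ?_ ?_
      · intro k
        simp [pert, hP, (Fin.succAbove_ne j k).symm]
      · simpa [pert] using hk
      · have h1 : (Matrix.of fun k l : Fin 4 => (pert j e x) (.P k (j.succAbove l))) =
            Matrix.scalar (Fin 4) e - (-M) := by
          ext k l
          simp only [Matrix.of_apply, pert, Matrix.sub_apply, Matrix.neg_apply, hM,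
            Matrix.scalar_apply, Matrix.diagonal_apply, Fin.succAbove_right_inj]
          by_cases hkl : k = l
          · simp [hkl, add_comm]
          · simp [hkl, Ne.symm hkl]
        rw [h1, ← Matrix.eval_charpoly]
        exact he
  have := congrFun hfun 0
  simpa [pert_zero] using this

theorem H_odd (hq : q.totalDegree ≤ 4) (hc : Continuous (fun z : (Px → ℝ) × ℝ => H z.1 z.2))
    (h : ∀ x t, MvPolynomial.eval (Psi x t) q = t ^ r * H x t) (hr : Odd r) (x : Px → ℝ) :
    H x 0 = 0 := by
  -- inclusion-exclusion for the leading coefficient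
  have key : ∀ x : Px → ℝ, ∑ T : Finset (Fin 5), (-1 : ℝ) ^ T.card * H (keepP T x) 0 = 0 := by
    intro x
    have := cancel (A := fun t => ∑ T : Finset (Fin 5), (-1 : ℝ) ^ T.card * H (keepP T x) t)
      (B := fun _ => 0)
      (continuous_finsetSum _ fun T _ => continuous_const.mul (H_cont1 hc _)) continuous_const r ?_
    · exact this
    · intro t
      have h1 := sum_keep q hq (Psi x t)
      simp only [← Psi_keep, h] at h1
      rw [Finset.mul_sum, mul_zero, ← h1]
      refine Finset.sum_congr rfl fun T _ => ?_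
      ring
  have hz : ∀ T : Finset (Fin 5), T ≠ Finset.univ → H (keepP T x) 0 = 0 := by
    intro T hT
    obtain ⟨j, hj⟩ : ∃ j, j ∉ T := by
      by_contra hcon
      push Not at hcon
      exact hT (Finset.eq_univ_iff_forall.mpr hcon)
    have h1 := H_col hc h j (keepP T x) (by intro k; simp [keepP, hj]) (by simp [keepP, hj])
    rw [H_neg hc h, hr.neg_one_pow] at h1
    linarith
  have h2 := key x
  rw [Finset.sum_eq_single Finset.univ] at h2
  · rw [keepP_univ] at h2
    simpa using h2
  · intro T _ hT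
    rw [hz T hT, mul_zero]
  · intro hh
    exact absurd (Finset.mem_univ _) hh

end leading

theorem sign_lemma (q : MvPolynomial Ix ℝ) (hq : q.totalDegree ≤ 4) :
    ∃ C : MvPolynomial Px ℝ, C ≠ 0 ∧ ∀ x : Px → ℝ, MvPolynomial.eval x C ≠ 0 →
      ∀ᶠ t in 𝓝[>] (0 : ℝ), SignType.sign (MvPolynomial.eval (Psi x t) q) =
        SignType.sign (MvPolynomial.eval (Psi x (-t)) q) := by
  by_cases hG : G q = 0
  · refine ⟨1, one_ne_zero, fun x _ => Eventually.of_forall fun t => ?_⟩
    rw [← ev_G, ← ev_G, hG, map_zero (ev x t), map_zero (ev x (-t))]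
  · set r := (G q).natTrailingDegree with hr
    have hv : (G q).coeff r ≠ 0 := by
      have := Polynomial.trailingCoeff_nonzero_iff_nonzero.mpr hG
      exact this
    obtain ⟨p, hp⟩ : Polynomial.X ^ r ∣ G q := by
      rw [Polynomial.X_pow_dvd_iff]
      intro d hd
      exact Polynomial.coeff_eq_zero_of_lt_natTrailingDegree hd
    have hp0 : p.coeff 0 = (G q).coeff r := by
      have h := Polynomial.coeff_X_pow_mul p r 0
      rw [zero_add] at h
      rw [hp]
      exact h.symm
    have hH : ∀ x t, MvPolynomial.eval (Psi x t) q = t ^ r * ev x t p := by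
      intro x t
      rw [← ev_G, hp, map_mul, map_pow]
      simp [ev]
    have hc : Continuous (fun z : (Px → ℝ) × ℝ => (fun x t => ev x t p) z.1 z.2) := continuous_ev p
    have heven : Even r := by
      by_contra hodd
      rw [Nat.not_even_iff_odd] at hodd
      apply hv
      apply MvPolynomial.funext
      intro x
      have := H_odd hq hc hH hodd x
      simp only [ev_zero] at this
      rw [← hp0, this, map_zero]
    refine ⟨(G q).coeff r, hv, fun x hx => ?_⟩
    have hx' : ev x 0 p ≠ 0 := by rwa [ev_zero, hp0]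
    have hcx : Continuous (fun t => ev x t p) := H_cont1 (H := fun x t => ev x t p) hc x
    have h1 : ∀ᶠ t in 𝓝 (0 : ℝ), SignType.sign (ev x t p) = SignType.sign (ev x 0 p) := by
      rcases lt_or_gt_of_ne hx' with hneg | hpos
      · filter_upwards [hcx.continuousAt.eventually_lt (continuousAt_const (y := (0 : ℝ))) hneg]
          with t ht
        rw [sign_neg ht, sign_neg hneg]
      · filter_upwards [(continuousAt_const (y := (0 : ℝ))).eventually_lt hcx.continuousAt hpos]
          with t ht
        rw [sign_pos ht, sign_pos hpos]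
    have h2 : ∀ᶠ t in 𝓝 (0 : ℝ), SignType.sign (ev x (-t) p) = SignType.sign (ev x 0 p) := by
      have htend : Tendsto (fun t : ℝ => -t) (𝓝 0) (𝓝 0) := by
        have := (continuous_neg (G := ℝ)).tendsto 0
        simpa using this
      exact htend.eventually h1
    filter_upwards [nhdsWithin_le_nhds h1, nhdsWithin_le_nhds h2] with t ht1 ht2
    rw [hH, hH, heven.neg_pow, sign_mul, sign_mul, ht1, ht2]

/-- Sign of a one variable polynomial near zero. -/
theorem eventually_pos (p : Polynomial ℝ) (e : ℕ) (h0 : ∀ d < e, p.coeff d = 0)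
    (he : 0 < p.coeff e) : ∀ᶠ t in 𝓝[>] (0 : ℝ), 0 < p.eval t := by
  obtain ⟨g, hg⟩ : Polynomial.X ^ e ∣ p := by
    rw [Polynomial.X_pow_dvd_iff]
    exact h0
  have hg0 : g.eval 0 = p.coeff e := by
    have h := Polynomial.coeff_X_pow_mul g e 0
    rw [zero_add] at h
    rw [hg, ← Polynomial.coeff_zero_eq_eval_zero]
    exact h.symm
  have h1 : ∀ᶠ t in 𝓝 (0 : ℝ), 0 < g.eval t := by
    refine (continuousAt_const (y := (0 : ℝ))).eventually_lt g.continuous.continuousAt ?_
    rw [hg0]
    exact he
  filter_upwards [nhdsWithin_le_nhds h1, self_mem_nhdsWithin] with t ht ht'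
  have ht'' : (0 : ℝ) < t := ht'
  rw [hg, Polynomial.eval_mul, Polynomial.eval_pow, Polynomial.eval_X]
  positivity

theorem germ (p m : Polynomial ℝ) (c : ℝ) (hc : 0 < c)
    (h : ∀ e ≤ 4, SignType.sign (p.coeff e) = SignType.sign (m.coeff e)) :
    ∀ᶠ t in 𝓝[>] (0 : ℝ), ¬ (c * t ^ 4 ≤ p.eval t ∧ m.eval t ≤ 0) := by
  have hneg : (∃ e, e ≤ 4 ∧ (∀ d < e, (Polynomial.C c * Polynomial.X ^ 4 - p).coeff d = 0) ∧
      0 < (Polynomial.C c * Polynomial.X ^ 4 - p).coeff e) →
      ∀ᶠ t in 𝓝[>] (0 : ℝ), ¬ (c * t ^ 4 ≤ p.eval t ∧ m.eval t ≤ 0) := by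
    rintro ⟨e, _, h1, h2⟩
    filter_upwards [eventually_pos _ e h1 h2] with t ht
    simp only [Polynomial.eval_sub, Polynomial.eval_mul, Polynomial.eval_C, Polynomial.eval_pow,
      Polynomial.eval_X] at ht
    rintro ⟨h3, _⟩
    linarith
  have hco : ∀ d, (Polynomial.C c * Polynomial.X ^ 4 - p).coeff d =
      (if d = 4 then c else 0) - p.coeff d := by
    intro d
    rw [Polynomial.coeff_sub, Polynomial.coeff_C_mul, Polynomial.coeff_X_pow]
    simp
  simp only [hco] at hneg
  by_cases hex : ∃ e, e ≤ 4 ∧ p.coeff e ≠ 0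
  · classical
    obtain ⟨he4, hne⟩ := Nat.find_spec hex
    have hmin : ∀ d < Nat.find hex, p.coeff d = 0 := by
      intro d hd
      have := Nat.find_min hex hd
      push Not at this
      exact this (by omega)
    set e := Nat.find hex with hedef
    rcases lt_or_gt_of_ne hne with hlt | hgt
    · apply hneg
      refine ⟨e, he4, ?_, ?_⟩
      · intro d hd
        rw [hmin d hd, if_neg (by omega)]
        simp
      · split_ifs
        · linarith
        · linarith
    · have hm : ∀ d < e, m.coeff d = 0 := by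
        intro d hd
        have := h d (by omega)
        rw [hmin d hd, sign_zero] at this
        exact sign_eq_zero_iff.mp this.symm
      have hme : 0 < m.coeff e := by
        have := h e he4
        rw [sign_pos hgt] at this
        exact sign_eq_one_iff.mp this.symm
      filter_upwards [eventually_pos m e hm hme] with t ht
      rintro ⟨_, h4⟩
      linarith
  · push Not at hex
    apply hneg
    refine ⟨4, le_rfl, ?_, ?_⟩
    · intro d hd
      rw [hex d (by omega), if_neg (by omega)]
      simp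
    · rw [hex 4 le_rfl, if_pos rfl]
      simpa using hc

/-- The restriction of a polynomial to a line through the origin. -/
noncomputable def line (q : MvPolynomial Ix ℝ) (x : Ix → ℝ) : Polynomial ℝ :=
  ∑ e ∈ range (q.totalDegree + 1),
    Polynomial.C (MvPolynomial.eval x (MvPolynomial.homogeneousComponent e q)) * Polynomial.X ^ e

theorem line_coeff (q : MvPolynomial Ix ℝ) (x : Ix → ℝ) (e : ℕ) :
    (line q x).coeff e = MvPolynomial.eval x (MvPolynomial.homogeneousComponent e q) := by
  unfold line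
  rw [Polynomial.finsetSum_coeff]
  simp only [Polynomial.coeff_C_mul, Polynomial.coeff_X_pow, mul_ite, mul_one, mul_zero]
  rw [Finset.sum_ite_eq]
  split_ifs with h
  · rfl
  · rw [MvPolynomial.homogeneousComponent_eq_zero, map_zero]
    simp at h
    omega

theorem eval_smul_homog (p : MvPolynomial Ix ℝ) (e : ℕ) (hp : p.IsHomogeneous e) (t : ℝ)
    (x : Ix → ℝ) : MvPolynomial.eval (t • x) p = t ^ e * MvPolynomial.eval x p := by
  rw [MvPolynomial.eval_eq', MvPolynomial.eval_eq', Finset.mul_sum]
  refine Finset.sum_congr rfl fun d hd => ?_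
  have h1 : ∑ j, d j = e := by
    have := hp (MvPolynomial.mem_support_iff.mp hd)
    rw [Finsupp.weight_apply, Finsupp.sum_fintype _ _ (fun _ => by simp)] at this
    simpa using this
  simp only [Pi.smul_apply, smul_eq_mul, mul_pow, Finset.prod_mul_distrib, Finset.prod_pow_eq_pow_sum,
    h1]
  ring

theorem line_eval (q : MvPolynomial Ix ℝ) (x : Ix → ℝ) (t : ℝ) :
    (line q x).eval t = MvPolynomial.eval (t • x) q := by
  conv_rhs => rw [← MvPolynomial.sum_homogeneousComponent q]
  rw [map_sum]
  unfold line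
  rw [Polynomial.eval_finsetSum]
  refine Finset.sum_congr rfl fun e _ => ?_
  rw [eval_smul_homog _ e (MvPolynomial.homogeneousComponent_isHomogeneous e q),
    Polynomial.eval_mul, Polynomial.eval_C, Polynomial.eval_pow, Polynomial.eval_X]
  ring

/-! ### The quartic form and the determinant along the arcs -/

theorem S_Psi (x : Px → ℝ) (t : ℝ) (i j : Fin 5) : S (Psi x t) i j = t ^ 2 * S (base x) i j := by
  simp only [S, Psi, base, Fin.sum_univ_four]
  ring

theorem f_Psi (x : Px → ℝ) (t : ℝ) : f (Psi x t) = t ^ 4 * f (base x) := by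
  simp only [f, S_Psi, mul_pow, ← Finset.mul_sum]
  ring

theorem D_Psi (x : Px → ℝ) (t : ℝ) : D (Psi x t) = t * D (base x) := by
  have hT : ∃ T : Matrix (Fin 5) (Fin 5) ℝ, Mat (Psi x t) = T * Mat (base x) ∧ T.det = t := by
    refine ⟨Matrix.of (fun r s => Fin.lastCases (motive := fun _ => ℝ)
      (Fin.lastCases (motive := fun _ => ℝ) t (fun k => x (.th k)) s)
      (fun k => if Fin.castSucc k = s then 1 else 0) r), ?_, ?_⟩
    · ext r i
      rw [Matrix.mul_apply, Fin.sum_univ_castSucc]
      refine Fin.lastCases ?_ (fun k => ?_) r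
      · simp only [Matrix.of_apply, Mat, Fin.lastCases_last, Fin.lastCases_castSucc, Psi, base]
        ring
      · simp only [Matrix.of_apply, Mat, Fin.lastCases_last, Fin.lastCases_castSucc, Psi, base,
          Fin.castSucc_inj, ite_mul, one_mul, zero_mul, Finset.sum_ite_eq, Finset.mem_univ, if_true]
        rw [if_neg (Fin.castSucc_lt_last k).ne, add_zero]
    · rw [Matrix.det_of_isLowerTriangular, Fin.prod_univ_castSucc]
      · simp only [Matrix.of_apply, Fin.lastCases_last, Fin.lastCases_castSucc, if_true,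
          Finset.prod_const_one, one_mul]
      · intro r s hrs
        have hrs' : r < s := hrs
        revert hrs'
        refine Fin.lastCases ?_ (fun k => ?_) r
        · intro h
          exact absurd h (not_lt.mpr (Fin.le_last s))
        · intro h
          simp only [Matrix.of_apply, Fin.lastCases_castSucc]
          rw [if_neg h.ne]
  obtain ⟨T, h1, h2⟩ := hT
  unfold D
  rw [h1, Matrix.det_mul, h2]

theorem S_smul (t : ℝ) (x : Ix → ℝ) (i j : Fin 5) : S (t • x) i j = t ^ 2 * S x i j := by
  simp only [S, Pi.smul_apply, smul_eq_mul, Fin.sum_univ_four]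
  ring

theorem f_smul (t : ℝ) (x : Ix → ℝ) : f (t • x) = t ^ 4 * f x := by
  simp only [f, S_smul, mul_pow, ← Finset.mul_sum]
  ring

theorem D_smul (t : ℝ) (x : Ix → ℝ) : D (t • x) = t ^ 5 * D x := by
  have h : Mat (t • x) = t • Mat x := by
    ext r i
    simp only [Mat, Matrix.smul_apply]
    refine Fin.lastCases ?_ (fun k => ?_) r
    · simp only [Fin.lastCases_last, Pi.smul_apply]
    · simp only [Fin.lastCases_castSucc, Pi.smul_apply]
  unfold D
  rw [h, Matrix.det_smul, Fintype.card_fin]

theorem quad_S (x : Ix → ℝ) (u : Fin 5 → ℝ) :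
    ∑ i, ∑ j, S x i j * (u i * u j) =
      2 * (∑ k, (∑ i, x (.a k i) * u i) * (∑ i, x (.b k i) * u i)) +
        2 * (∑ i, x (.c i) * u i) ^ 2 := by
  simp only [S, Fin.sum_univ_five, Fin.sum_univ_four]
  ring

theorem f_nonpos (x : Ix → ℝ) (hD : D x = 0) : f x ≤ 0 := by
  obtain ⟨v, hv0, hv⟩ := Matrix.exists_mulVec_eq_zero_iff.mpr hD
  have ha : ∀ k, ∑ i, x (.a k i) * v i = 0 := by
    intro k
    have := congrFun hv (Fin.castSucc k)
    simpa only [Matrix.mulVec, dotProduct, Mat, Fin.lastCases_castSucc, Pi.zero_apply] using this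
  have hc : ∑ i, x (.c i) * v i = 0 := by
    have := congrFun hv (Fin.last 4)
    simpa only [Matrix.mulVec, dotProduct, Mat, Fin.lastCases_last, Pi.zero_apply] using this
  have hquad : ∑ i, ∑ j, S x i j * (v i * v j) = 0 := by
    rw [quad_S, hc]
    simp [ha]
  set N : ℝ := ∑ i, v i ^ 2 with hN
  have hNpos : 0 < N := by
    obtain ⟨i, hi⟩ : ∃ i, v i ≠ 0 := by
      by_contra hcon
      push Not at hcon
      exact hv0 (funext hcon)
    exact Finset.sum_pos' (fun i _ => sq_nonneg _) ⟨i, Finset.mem_univ _, by positivity⟩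
  set t : ℝ := ∑ i, S x i i with ht
  have hQ1 : ∑ i, ∑ j, S x i j * ((if i = j then 1 else 0) - v i * v j / N) = t := by
    have : ∀ i j : Fin 5, S x i j * ((if i = j then 1 else 0) - v i * v j / N) =
        (if i = j then S x i j else 0) - (S x i j * (v i * v j)) * N⁻¹ := by
      intro i j
      split_ifs <;> ring
    simp only [this, Finset.sum_sub_distrib, Finset.sum_ite_eq, Finset.mem_univ, if_true,
      ← Finset.sum_mul, hquad, zero_mul, sub_zero]
    rfl
  have hQ2 : ∑ i : Fin 5, ∑ j : Fin 5, (((if i = j then 1 else 0) - v i * v j / N) ^ 2 : ℝ) = 4 := by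
    have h1 : ∀ i j : Fin 5, (((if i = j then 1 else 0) - v i * v j / N) ^ 2 : ℝ) =
        (if i = j then 1 - 2 * (v i * v j) * N⁻¹ else 0) + v i ^ 2 * N⁻¹ ^ 2 * v j ^ 2 := by
      intro i j
      split_ifs <;> ring
    have h2 : ∀ i : Fin 5, ∑ j : Fin 5, (((if i = j then 1 else 0) - v i * v j / N) ^ 2 : ℝ) =
        1 - N⁻¹ * v i ^ 2 := by
      intro i
      simp only [h1, Finset.sum_add_distrib, Finset.sum_ite_eq, Finset.mem_univ, if_true,
        ← Finset.mul_sum, ← hN]
      field_simp
      ring
    simp only [h2, Finset.sum_sub_distrib, ← Finset.mul_sum, ← hN]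
    rw [inv_mul_cancel₀ hNpos.ne']
    simp
    norm_num
  have hcs : t ^ 2 ≤ (∑ i, ∑ j, (S x i j) ^ 2) * 4 := by
    have := Finset.sum_mul_sq_le_sq_mul_sq (Finset.univ : Finset (Fin 5 × Fin 5))
      (fun z => S x z.1 z.2) (fun z => (if z.1 = z.2 then 1 else 0) - v z.1 * v z.2 / N)
    simp only [Fintype.sum_prod_type] at this
    rw [hQ1, hQ2] at this
    exact this
  unfold f
  rw [← ht]
  linarith

/-! ### The function -/

/-- The counterexample. -/
noncomputable def F0 (x : Ix → ℝ) : ℝ := if 0 < D x then max (f x) 0 else 0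

/-- Polynomial version of `f`. -/
noncomputable def fP : MvPolynomial Ix ℝ := f MvPolynomial.X

/-- Polynomial version of `D`. -/
noncomputable def DP : MvPolynomial Ix ℝ := D MvPolynomial.X

theorem eval_fP (x : Ix → ℝ) : MvPolynomial.eval x fP = f x := by
  unfold fP
  rw [map_f]
  simp

theorem eval_DP (x : Ix → ℝ) : MvPolynomial.eval x DP = D x := by
  unfold DP
  rw [map_D]
  simp

theorem continuous_f : Continuous (f : (Ix → ℝ) → ℝ) := by
  have : (f : (Ix → ℝ) → ℝ) = fun x => MvPolynomial.eval x fP := by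
    funext x
    rw [eval_fP]
  rw [this]
  exact MvPolynomial.continuous_eval _

theorem continuous_D : Continuous (D : (Ix → ℝ) → ℝ) := by
  have : (D : (Ix → ℝ) → ℝ) = fun x => MvPolynomial.eval x DP := by
    funext x
    rw [eval_DP]
  rw [this]
  exact MvPolynomial.continuous_eval _

theorem continuous_F0 : Continuous F0 := by
  unfold F0
  refine Continuous.if ?_ (continuous_f.max continuous_const) continuous_const
  intro x hx
  have h1 : x ∈ {y : Ix → ℝ | 0 = D y} :=
    frontier_lt_subset_eq continuous_const continuous_D hx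
  exact max_eq_right (f_nonpos x h1.symm)

theorem F0_piecewise (x : Ix → ℝ) : F0 x = MvPolynomial.eval x fP ∨ F0 x = 0 := by
  unfold F0
  rw [eval_fP]
  split_ifs
  · exact max_choice _ _
  · exact Or.inr rfl

/-- The base point. -/
noncomputable def x0 : Px → ℝ
  | .th _ => 0
  | .L _ _ => 0
  | .P k i => if i = Fin.castSucc k then 1 else 0
  | .ka i => if i = Fin.last 4 then 1 else 0
  | .be k i => if i = Fin.castSucc k then 1 else 0

theorem f_x0 : f (base x0) = 20 := by
  have hS : ∀ i j, S (base x0) i j = if i = j then 2 else 0 := by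
    intro i j
    simp only [S, base, x0, Fin.sum_univ_four]
    fin_cases i <;> fin_cases j <;> simp <;> norm_num
  simp only [f, hS]
  simp
  norm_num

theorem D_x0 : D (base x0) = 1 := by
  have : Mat (base x0) = 1 := by
    ext r i
    simp only [Mat, base, x0]
    refine Fin.lastCases ?_ (fun k => ?_) r
    · simp only [Fin.lastCases_last, Matrix.one_apply, eq_comm]
    · simp only [Fin.lastCases_castSucc, Matrix.one_apply, eq_comm]
  unfold D
  rw [this, Matrix.det_one]

theorem continuous_base : Continuous (base : (Px → ℝ) → (Ix → ℝ)) := by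
  refine continuous_pi fun j => ?_
  cases j <;> simp only [base] <;> fun_prop

theorem exists_point (C : MvPolynomial Px ℝ) (hC : C ≠ 0) :
    ∃ x : Px → ℝ, MvPolynomial.eval x C ≠ 0 ∧ 0 < f (base x) ∧ 0 < D (base x) := by
  have hU : {x : Px → ℝ | 0 < f (base x) ∧ 0 < D (base x)} ∈ 𝓝 x0 := by
    refine IsOpen.mem_nhds ?_ ?_
    · exact (isOpen_lt continuous_const (continuous_f.comp continuous_base)).inter
        (isOpen_lt continuous_const (continuous_D.comp continuous_base))
    · simp only [Set.mem_ofPred_eq, f_x0, D_x0]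
      norm_num
  obtain ⟨e, he, hsub⟩ := Metric.mem_nhds_iff.mp hU
  by_contra hcon
  push Not at hcon
  apply hC
  refine MvPolynomial.funext_set (fun i => Metric.ball (x0 i) e) ?_ ?_
  · intro i
    rw [Real.ball_eq_Ioo]
    exact Set.Ioo_infinite (by linarith)
  · intro x hx
    rw [map_zero]
    by_contra hne
    rw [← ball_pi _ he] at hx
    have h2 := hsub hx
    exact absurd h2.2 (not_lt.mpr (hcon x hne h2.1))

/-- The function is not a max of mins of polynomials. -/
theorem not_isd (m k : ℕ) (hm : 0 < m) (hk : 0 < k) (q : Fin m → Fin k → MvPolynomial Ix ℝ)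
    (hq : ∀ x : Ix → ℝ, F0 x = ⨆ i : Fin m, ⨅ j : Fin k, MvPolynomial.eval x (q i j)) : False := by
  have : Nonempty (Fin m) := ⟨⟨0, hm⟩⟩
  have : Nonempty (Fin k) := ⟨⟨0, hk⟩⟩
  have hdeg : ∀ (i : Fin m) (j : Fin k) (e : Fin 5),
      (MvPolynomial.homogeneousComponent (e : ℕ) (q i j)).totalDegree ≤ 4 := by
    intro i j e
    refine ((MvPolynomial.homogeneousComponent_isHomogeneous (e : ℕ) (q i j)).totalDegree_le).trans ?_
    have := e.isLt
    omega
  choose C hC0 hC using fun (i : Fin m) (j : Fin k) (e : Fin 5) => sign_lemma _ (hdeg i j e)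
  have hprod : ∏ i, ∏ j, ∏ e, C i j e ≠ 0 := by
    refine Finset.prod_ne_zero_iff.mpr fun i _ => Finset.prod_ne_zero_iff.mpr fun j _ =>
      Finset.prod_ne_zero_iff.mpr fun e _ => hC0 i j e
  obtain ⟨x, hx, hf, hD⟩ := exists_point _ hprod
  have hx' : ∀ i j e, MvPolynomial.eval x (C i j e) ≠ 0 := by
    intro i j e h0
    apply hx
    rw [map_prod]
    refine Finset.prod_eq_zero (Finset.mem_univ i) ?_
    rw [map_prod]
    refine Finset.prod_eq_zero (Finset.mem_univ j) ?_
    rw [map_prod]
    exact Finset.prod_eq_zero (Finset.mem_univ e) h0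
  have hev : ∀ᶠ t in 𝓝[>] (0 : ℝ), ∀ i j e,
      SignType.sign (MvPolynomial.eval (Psi x t)
        (MvPolynomial.homogeneousComponent ((e : Fin 5) : ℕ) (q i j))) =
      SignType.sign (MvPolynomial.eval (Psi x (-t))
        (MvPolynomial.homogeneousComponent ((e : Fin 5) : ℕ) (q i j))) := by
    simp only [eventually_all]
    exact fun i j e => hC i j e x (hx' i j e)
  obtain ⟨t, hsign, ht⟩ := (hev.and self_mem_nhdsWithin).exists
  have ht0 : (0 : ℝ) < t := ht
  set xp := Psi x t with hxp
  set xm := Psi x (-t) with hxm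
  have hfp : 0 < f xp := by
    rw [hxp, f_Psi]
    positivity
  have hDp : 0 < D xp := by
    rw [hxp, D_Psi]
    positivity
  have hDm : D xm < 0 := by
    rw [hxm, D_Psi]
    nlinarith
  have hev2 : ∀ᶠ s in 𝓝[>] (0 : ℝ), ∀ i j,
      ¬ (f xp * s ^ 4 ≤ MvPolynomial.eval (s • xp) (q i j) ∧
        MvPolynomial.eval (s • xm) (q i j) ≤ 0) := by
    simp only [eventually_all]
    intro i j
    have := germ (line (q i j) xp) (line (q i j) xm) (f xp) hfp ?_
    · filter_upwards [this] with s hs
      rw [line_eval, line_eval] at hs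
      exact hs
    · intro e he
      rw [line_coeff, line_coeff]
      exact hsign i j ⟨e, by omega⟩
  obtain ⟨s, hs, hs'⟩ := (hev2.and self_mem_nhdsWithin).exists
  have hs0 : (0 : ℝ) < s := hs'
  have h1 : F0 (s • xp) = f xp * s ^ 4 := by
    unfold F0
    have : 0 < D (s • xp) := by
      rw [D_smul]
      positivity
    rw [if_pos this, f_smul, max_eq_left (by positivity)]
    ring
  have h2 : F0 (s • xm) = 0 := by
    unfold F0
    have : ¬ 0 < D (s • xm) := by
      rw [D_smul, not_lt]
      exact mul_nonpos_of_nonneg_of_nonpos (by positivity) hDm.le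
    rw [if_neg this]
  obtain ⟨i, hi⟩ := exists_eq_ciSup_of_finite
    (f := fun i : Fin m => ⨅ j : Fin k, MvPolynomial.eval (s • xp) (q i j))
  obtain ⟨j, hj⟩ := exists_eq_ciInf_of_finite
    (f := fun j : Fin k => MvPolynomial.eval (s • xm) (q i j))
  refine hs i j ⟨?_, ?_⟩
  · have h3 : f xp * s ^ 4 = ⨅ j : Fin k, MvPolynomial.eval (s • xp) (q i j) := by
      rw [← h1, hq, ← hi]
    rw [h3]
    exact ciInf_le (Set.finite_range _).bddBelow j
  · have h3 : (⨅ j : Fin k, MvPolynomial.eval (s • xm) (q i j)) ≤ 0 := by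
      rw [← h2, hq]
      exact le_ciSup (f := fun i : Fin m => ⨅ j : Fin k, MvPolynomial.eval (s • xm) (q i j))
        (Set.finite_range _).bddAbove i
    have h4 : MvPolynomial.eval (s • xm) (q i j) =
      ⨅ j : Fin k, MvPolynomial.eval (s • xm) (q i j) := hj
    rw [h4]
    exact h3

/-- The disproof. -/
theorem main :
    ¬ (∀ (n : ℕ) (f : (Fin n → ℝ) → ℝ), Continuous f →
      ((∃ s : Finset (MvPolynomial (Fin n) ℝ),
          ∀ a : Fin n → ℝ, ∃ p ∈ s, f a = MvPolynomial.eval a p) ↔
       (∃ m k : ℕ, 0 < m ∧ 0 < k ∧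
          ∃ q : Fin m → Fin k → MvPolynomial (Fin n) ℝ,
            ∀ a : Fin n → ℝ, f a = ⨆ i : Fin m, ⨅ j : Fin k, MvPolynomial.eval a (q i j)))) := by
  classical
  intro hall
  set e : Fin (Fintype.card Ix) ≃ Ix := (Fintype.equivFin Ix).symm with he
  have hcont : Continuous (fun a : Fin (Fintype.card Ix) → ℝ => F0 (a ∘ e.symm)) :=
    continuous_F0.comp (continuous_pi fun i => continuous_apply _)
  obtain ⟨m, k, hm, hk, q, hq⟩ := (hall (Fintype.card Ix) _ hcont).mp (by
    refine ⟨{MvPolynomial.rename e.symm fP, 0}, fun a => ?_⟩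
    rcases F0_piecewise (a ∘ e.symm) with h | h
    · refine ⟨MvPolynomial.rename e.symm fP, by simp, ?_⟩
      rw [h, MvPolynomial.eval_rename]
    · refine ⟨0, by simp, ?_⟩
      rw [h, map_zero])
  refine not_isd m k hm hk (fun i j => MvPolynomial.rename e (q i j)) fun x => ?_
  have h1 := hq (x ∘ e)
  have h2 : (x ∘ e) ∘ e.symm = x := by
    funext i
    simp
  rw [h2] at h1
  rw [h1]
  simp only [MvPolynomial.eval_rename]

end Pool.Agent.PB61
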